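import Mathlib

set_option linter.unusedSectionVars false

namespace Pool.Agent.Results.MP_97d10c_gt.MaxChainsCCompleteNotHClosed

open Set Order Topology

/-! ## Order notions in a semigroup of idempotents -/

/-- A chain: `xy ∈ {x, y}` for all `x, y ∈ C`. -/
def SChain {X : Type*} [Mul X] (C : Set X) : Prop :=
  ∀ x ∈ C, ∀ y ∈ C, x * y = x ∨ x * y = y

/-- An inclusion-maximal chain. -/
def MaxSChain {X : Type*} [Mul X] (M : Set X) : Prop :=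
  SChain M ∧ ∀ D : Set X, SChain D → M ⊆ D → D = M

/-- A chain, as a subsemigroup. -/
def chainSub {X : Type*} [Mul X] (M : Set X) (hM : SChain M) : Subsemigroup X where
  carrier := M
  mul_mem' := by
    intro a b ha hb
    rcases hM a ha b hb with h | h
    · rw [h]; exact ha
    · rw [h]; exact hb

/-- The natural order `x ≤ y ↔ xy = x`. -/
def NLE {X : Type*} [Mul X] (x y : X) : Prop := x * y = x

/-- `i` is the infimum of `C` in the natural order of `X`. -/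
def IsInf {X : Type*} [Mul X] (C : Set X) (i : X) : Prop :=
  (∀ c ∈ C, NLE i c) ∧ ∀ j, (∀ c ∈ C, NLE j c) → NLE j i

/-- `s` is the supremum of `C` in the natural order of `X`. -/
def IsSup {X : Type*} [Mul X] (C : Set X) (s : X) : Prop :=
  (∀ c ∈ C, NLE c s) ∧ ∀ j, (∀ c ∈ C, NLE c j) → NLE s j

/-- `c`-completeness of a topological semilattice. -/
def CComplete (X : Type*) [Mul X] [TopologicalSpace X] : Prop :=
  ∀ F : Set X, IsClosed F → (∀ x ∈ F, ∀ y, NLE x y → y ∈ F) →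
    ∀ C : Set X, C.Nonempty → C ⊆ F → SChain C →
      (∃ i ∈ F, IsInf C i) ∧ ∃ s ∈ closure {x | ∃ c ∈ C, NLE x c}, IsSup C s

/-! ## Well-orders -/

section W

variable {W : Type*} [LinearOrder W]

/-- `F` is cofinal in the initial segment below `l`. -/
def Cof (F : Set W) (l : W) : Prop := ∀ η < l, ∃ ξ ∈ F, η < ξ ∧ ξ < l

/-- `F` is closed under limits. -/
def LC (F : Set W) : Prop := ∀ l, IsSuccLimit l → Cof F l → l ∈ F

theorem cof_of_lub {S : Set W} (hS : S.Nonempty) {l : W} (hl : IsLUB S l) (hn : l ∉ S) :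
    IsSuccLimit l ∧ Cof S l := by
  have hc : Cof S l := by
    intro η hη
    obtain ⟨s, hs, hηs, hsl⟩ := hl.exists_between hη
    exact ⟨s, hs, hηs, lt_of_le_of_ne hsl (fun h => hn (h ▸ hs))⟩
  refine ⟨⟨?_, ?_⟩, hc⟩
  · intro hmin
    obtain ⟨s, hs⟩ := hS
    have h1 : s ≤ l := hl.1 hs
    have h2 : s = l := le_antisymm h1 (hmin h1)
    exact hn (h2 ▸ hs)
  · intro a ha
    obtain ⟨s, _, h1, h2⟩ := hc a ha.lt
    exact ha.2 h1 h2

variable [WellFoundedLT W]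

theorem exists_least {S : Set W} (hS : S.Nonempty) : ∃ l, IsLeast S l := by
  obtain ⟨l, hl, hmin⟩ := WellFounded.has_min (wellFounded_lt (α := W)) S hS
  exact ⟨l, hl, fun x hx => not_lt.1 (hmin x hx)⟩

theorem exists_lub {S : Set W} (hb : BddAbove S) : ∃ l, IsLUB S l := exists_least hb

theorem compact_chain {ι : Type*} (C : Set ι) (Fi : ι → Set W)
    (hchain : ∀ c ∈ C, ∀ d ∈ C, Fi c ⊆ Fi d ∨ Fi d ⊆ Fi c)
    (hlc : ∀ c ∈ C, LC (Fi c)) (D : Set W) (hD : LC D)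
    (hb : ∃ c ∈ C, BddAbove (Fi c ∩ D))
    (hint : ∀ c ∈ C, (Fi c ∩ D).Nonempty) : ∃ x ∈ D, ∀ c ∈ C, x ∈ Fi c := by
  obtain ⟨c₀, hc₀, b, hb⟩ := hb
  let S : Set W := {x | ∃ c ∈ C, IsLeast (Fi c ∩ D) x}
  have hSne : S.Nonempty := by
    obtain ⟨x, hx⟩ := exists_least (hint c₀ hc₀)
    exact ⟨x, c₀, hc₀, hx⟩
  have hSb : BddAbove S := by
    refine ⟨b, ?_⟩
    rintro x ⟨c, hc, hx⟩
    rcases hchain c hc c₀ hc₀ with h | h
    · exact hb ⟨h hx.1.1, hx.1.2⟩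
    · obtain ⟨x₀, hx₀⟩ := exists_least (hint c₀ hc₀)
      exact (hx.2 ⟨h hx₀.1.1, hx₀.1.2⟩).trans (hb hx₀.1)
  obtain ⟨l, hl⟩ := exists_lub hSb
  by_cases hlS : l ∈ S
  · obtain ⟨c', hc', hl'⟩ := hlS
    refine ⟨l, hl'.1.2, fun c hc => ?_⟩
    rcases hchain c hc c' hc' with h | h
    · obtain ⟨x, hx⟩ := exists_least (hint c hc)
      have h1 : x ≤ l := hl.1 ⟨c, hc, hx⟩
      have h2 : l ≤ x := hl'.2 ⟨h hx.1.1, hx.1.2⟩
      rw [le_antisymm h2 h1]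
      exact hx.1.1
    · exact h hl'.1.1
  · obtain ⟨hlim, hcof⟩ := cof_of_lub hSne hl hlS
    have key : ∀ c ∈ C, Cof (Fi c ∩ D) l := by
      intro c hc η hη
      obtain ⟨x, hx⟩ := exists_least (hint c hc)
      have hxS : x ∈ S := ⟨c, hc, hx⟩
      have hxl : x < l := lt_of_le_of_ne (hl.1 hxS) (fun h => hlS (h ▸ hxS))
      obtain ⟨z, ⟨c', hc', hz⟩, h1, h2⟩ := hcof (max η x) (max_lt hη hxl)
      refine ⟨z, ?_, lt_of_le_of_lt (le_max_left _ _) h1, h2⟩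
      rcases hchain c hc c' hc' with h | h
      · exfalso
        have h3 : z ≤ x := hz.2 ⟨h hx.1.1, hx.1.2⟩
        exact absurd (lt_of_le_of_lt (le_max_right _ _) h1) (not_lt.2 h3)
      · exact ⟨h hz.1.1, hz.1.2⟩
    refine ⟨l, hD l hlim ?_, fun c hc => hlc c hc l hlim ?_⟩
    · intro η hη
      obtain ⟨ξ, h1, h2⟩ := key c₀ hc₀ η hη
      exact ⟨ξ, h1.2, h2⟩
    · intro η hη
      obtain ⟨ξ, h1, h2⟩ := key c hc η hη
      exact ⟨ξ, h1.1, h2⟩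

theorem exists_limit (hcount : ∀ T : Set W, T.Countable → BddAbove T) {S : Set W}
    (w₀ : W) (hS : ∀ w, ∃ s ∈ S, w < s) : ∃ l, IsSuccLimit l ∧ Cof S l ∧ w₀ < l := by
  choose g hgS hg using hS
  let ν : ℕ → W := fun n => (fun w => g w)^[n] (g w₀)
  have hν1 : ∀ n, ν (n + 1) = g (ν n) := fun n => by
    simp only [ν, Function.iterate_succ_apply']
  have hνS : ∀ n, ν n ∈ S := by
    intro n
    cases n with
    | zero => exact hgS w₀
    | succ n => rw [hν1]; exact hgS _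
  obtain ⟨l, hl⟩ := exists_lub (hcount (range ν) (countable_range ν))
  have hlt : ∀ n, ν n < l := fun n =>
    lt_of_lt_of_le (hg (ν n)) (by rw [← hν1]; exact hl.1 ⟨n + 1, rfl⟩)
  have hln : l ∉ range ν := by
    rintro ⟨n, hn⟩
    exact absurd (hlt n) (by rw [hn]; exact lt_irrefl _)
  obtain ⟨h1, h2⟩ := cof_of_lub (range_nonempty ν) hl hln
  refine ⟨l, h1, ?_, (hg w₀).trans (hlt 0)⟩
  intro η hη
  obtain ⟨_, ⟨n, rfl⟩, h3, h4⟩ := h2 η hη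
  exact ⟨ν n, hνS n, h3, h4⟩

end W

/-! ## Good sets -/

section Good

variable {W : Type*} [LinearOrder W] [WellFoundedLT W] [SuccOrder W] [NoMaxOrder W]

/-- `k` is neither a limit nor the successor of a limit. -/
def IsI (k : W) : Prop := ¬ IsSuccLimit k ∧ ∀ l : W, IsSuccLimit l → succ l ≠ k

/-- Closed under limits, and with each limit it contains the successor of it. -/
structure Good (F : Set W) : Prop where
  lc : LC F
  sm : ∀ l, IsSuccLimit l → l ∈ F → succ l ∈ F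

theorem not_limit_succ (k : W) : ¬ IsSuccLimit (succ k) := by
  intro h
  exact h.2 k (Order.covBy_succ k)

theorem lt_limit_succ {k l : W} (hl : IsSuccLimit l) (h : k < l) : succ k < l :=
  hl.succ_lt h

theorem not_cof {F : Set W} {l : W} (h : ¬ Cof F l) : ∃ η < l, ∀ ξ ∈ F, η < ξ → ¬ ξ < l := by
  unfold Cof at h
  push Not at h
  obtain ⟨η, h1, h2⟩ := h
  exact ⟨η, h1, fun ξ h3 h4 h5 => absurd h5 (not_lt.2 (h2 ξ h3 h4))⟩

/-- If `F` is closed under limits and the limit `l` is not in `F`, then `F` misses some `(η, l]`. -/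
theorem LC.miss {F : Set W} (hF : LC F) {l : W} (hl : IsSuccLimit l) (h : l ∉ F) :
    ∃ η < l, ∀ ξ ∈ F, η < ξ → ¬ ξ ≤ l := by
  obtain ⟨η, h1, h2⟩ := not_cof (fun hc => h (hF l hl hc))
  refine ⟨η, h1, fun ξ h3 h4 h5 => ?_⟩
  rcases eq_or_lt_of_le h5 with h6 | h6
  · exact h (h6 ▸ h3)
  · exact h2 ξ h3 h4 h6

theorem Good.union {F G : Set W} (hF : Good F) (hG : Good G) : Good (F ∪ G) := by
  refine ⟨fun l hl hc => ?_, fun l hl h => ?_⟩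
  · by_contra hn
    obtain ⟨η, h1, h2⟩ := hF.lc.miss hl (fun h => hn (Or.inl h))
    obtain ⟨η', h1', h2'⟩ := hG.lc.miss hl (fun h => hn (Or.inr h))
    obtain ⟨ξ, h3, h4, h5⟩ := hc (max η η') (max_lt h1 h1')
    rcases h3 with h3 | h3
    · exact h2 ξ h3 (lt_of_le_of_lt (le_max_left _ _) h4) h5.le
    · exact h2' ξ h3 (lt_of_le_of_lt (le_max_right _ _) h4) h5.le
  · rcases h with h | h
    · exact Or.inl (hF.sm l hl h)
    · exact Or.inr (hG.sm l hl h)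

theorem Good.iInter {ι : Type*} {C : Set ι} {Fi : ι → Set W} (h : ∀ c ∈ C, Good (Fi c)) :
    Good {x | ∀ c ∈ C, x ∈ Fi c} := by
  refine ⟨fun l hl hc c hcC => (h c hcC).lc l hl ?_, fun l hl hc c hcC => (h c hcC).sm l hl (hc c hcC)⟩
  intro η hη
  obtain ⟨ξ, h1, h2⟩ := hc η hη
  exact ⟨ξ, h1 c hcC, h2⟩

/-- The least good set containing `S` (when `S` is closed under successors of limits). -/
def hull (S : Set W) : Set W :=
  {x | x ∈ S ∨ (IsSuccLimit x ∧ Cof S x) ∨ ∃ l, IsSuccLimit l ∧ Cof S l ∧ x = succ l}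

theorem subset_hull (S : Set W) : S ⊆ hull S := fun _ h => Or.inl h

theorem hull_hit {S : Set W} {η x : W} (hx : x ∈ hull S) (hη : ¬ IsSuccLimit η) (h : η < x) :
    ∃ ξ ∈ S, η < ξ ∧ ξ ≤ x := by
  rcases hx with h1 | ⟨_, h2⟩ | ⟨l, hl, hc, rfl⟩
  · exact ⟨x, h1, h, le_rfl⟩
  · obtain ⟨ξ, h3, h4, h5⟩ := h2 η h
    exact ⟨ξ, h3, h4, h5.le⟩
  · have h1 : η ≤ l := Order.lt_succ_iff.1 h
    have h2 : η < l := lt_of_le_of_ne h1 (fun h => hη (h ▸ hl))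
    obtain ⟨ξ, h3, h4, h5⟩ := hc η h2
    exact ⟨ξ, h3, h4, (h5.trans (Order.lt_succ l)).le⟩

theorem good_hull {S : Set W} (hS : ∀ l, IsSuccLimit l → l ∈ S → succ l ∈ S) : Good (hull S) := by
  refine ⟨fun l hl hc => ?_, fun l hl h => ?_⟩
  · refine Or.inr (Or.inl ⟨hl, fun η hη => ?_⟩)
    obtain ⟨x, hx, h1, h2⟩ := hc (succ η) (hl.succ_lt hη)
    obtain ⟨ξ, h3, h4, h5⟩ := hull_hit hx (not_limit_succ η) h1
    exact ⟨ξ, h3, (Order.lt_succ η).trans h4, lt_of_le_of_lt h5 h2⟩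
  · rcases h with h | ⟨_, h⟩ | ⟨l', _, _, h⟩
    · exact Or.inl (hS l hl h)
    · exact Or.inr (Or.inr ⟨l, hl, h, rfl⟩)
    · exact absurd hl (h ▸ not_limit_succ l')

theorem hull_subset {S G : Set W} (hG : Good G) (h : S ⊆ G) : hull S ⊆ G := by
  have hc : ∀ l, IsSuccLimit l → Cof S l → l ∈ G := fun l hl hc => hG.lc l hl (fun η hη => by
    obtain ⟨ξ, h1, h2⟩ := hc η hη
    exact ⟨ξ, h h1, h2⟩)
  rintro x (h1 | ⟨h2, h3⟩ | ⟨l, hl, hcl, rfl⟩)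
  · exact h h1
  · exact hc x h2 h3
  · exact hG.sm l hl (hc l hl hcl)

theorem hull_isI {S : Set W} {k : W} (hk : IsI k) (h : k ∈ hull S) : k ∈ S := by
  rcases h with h | ⟨h, _⟩ | ⟨l, hl, _, h⟩
  · exact h
  · exact absurd h hk.1
  · exact absurd h.symm (hk.2 l hl)

theorem hull_succ {S : Set W} {l : W} (h : succ l ∈ hull S) (hn : l ∉ hull S) :
    succ l ∈ S := by
  rcases h with h | ⟨h, _⟩ | ⟨l', hl', hc, h⟩
  · exact h
  · exact absurd h (not_limit_succ l)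
  · exfalso
    have : l = l' := Order.succ_injective h
    subst this
    exact hn (Or.inr (Or.inl ⟨hl', hc⟩))

theorem bdd_hull {S : Set W} (h : BddAbove S) : BddAbove (hull S) := by
  obtain ⟨b, hb⟩ := h
  refine ⟨succ (succ b), ?_⟩
  intro x hx
  by_contra hlt
  have hlt := not_le.1 hlt
  obtain ⟨ξ, h1, h2, _⟩ := hull_hit hx (not_limit_succ _) hlt
  exact absurd (hb h1) (not_le.2 (((Order.lt_succ b).trans (Order.lt_succ _)).trans h2))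

theorem isI_succ_succ (w : W) : IsI (succ (succ w)) :=
  ⟨not_limit_succ _, fun _ hl h => not_limit_succ w (Order.succ_injective h ▸ hl)⟩

theorem good_singleton {k : W} (hk : IsI k) : Good ({k} : Set W) := by
  refine ⟨fun l hl hc => ?_, fun l hl h => absurd hl (by rw [mem_singleton_iff.1 h]; exact hk.1)⟩
  exfalso
  by_cases hkl : k < l
  · obtain ⟨ξ, h1, h2, _⟩ := hc k hkl
    rw [mem_singleton_iff.1 h1] at h2
    exact lt_irrefl _ h2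
  · obtain ⟨a, ha⟩ : ∃ a, a < l := not_isMin_iff.1 hl.1
    obtain ⟨ξ, h1, _, h2⟩ := hc a ha
    rw [mem_singleton_iff.1 h1] at h2
    exact hkl h2

theorem good_empty : Good (∅ : Set W) := by
  refine ⟨fun l hl hc => ?_, fun _ _ h => h.elim⟩
  obtain ⟨a, ha⟩ : ∃ a, a < l := not_isMin_iff.1 hl.1
  obtain ⟨ξ, h1, _⟩ := hc a ha
  exact h1

end Good

/-! ## The semilattice `YY W` -/

section Semilattice

/-- Pairs `(F, a)` of a good set and a truth value, `a` being true when `F` is unbounded. -/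
@[ext] structure YY (W : Type*) [LinearOrder W] [SuccOrder W] where
  F : Set W
  a : Prop
  good : Good F
  flag : ¬ BddAbove F → a

variable {W : Type*} [LinearOrder W] [WellFoundedLT W] [SuccOrder W] [NoMaxOrder W]

instance : Mul (YY W) :=
  ⟨fun x y => ⟨x.F ∪ y.F, x.a ∨ y.a, x.good.union y.good, fun h => by
    by_contra hn
    exact h (BddAbove.union (not_not.1 fun h' => hn (Or.inl (x.flag h')))
      (not_not.1 fun h' => hn (Or.inr (y.flag h'))))⟩⟩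

@[simp] theorem mul_F (x y : YY W) : (x * y).F = x.F ∪ y.F := rfl
@[simp] theorem mul_a (x y : YY W) : (x * y).a = (x.a ∨ y.a) := rfl

instance : CommSemigroup (YY W) where
  mul_assoc x y z := by
    ext
    · simp [or_assoc]
    · simp [or_assoc]
  mul_comm x y := by
    ext
    · simp [or_comm]
    · simp [or_comm]

theorem mul_self' (x : YY W) : x * x = x := by
  ext
  · simp
  · simp

theorem nle_iff {x y : YY W} : NLE x y ↔ y.F ⊆ x.F ∧ (y.a → x.a) := by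
  unfold NLE
  constructor
  · intro h
    have h1 : x.F ∪ y.F = x.F := congrArg YY.F h
    have h2 : (x.a ∨ y.a) = x.a := congrArg YY.a h
    exact ⟨union_eq_left.1 h1, fun h3 => by rw [← h2]; exact Or.inr h3⟩
  · rintro ⟨h1, h2⟩
    apply YY.ext
    · simp [union_eq_left.2 h1]
    · simp only [mul_a, eq_iff_iff]
      exact ⟨fun h => h.elim id h2, Or.inl⟩

/-- Beyond `β`, the set `F` is finite and consists of points in `I`. -/
def FinI (β : W) (F : Set W) : Prop := (F ∩ Ioi β).Finite ∧ ∀ ξ ∈ F, β < ξ → IsI ξ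

/-- For some limit `l > β`, `F` contains `l + 1` and `F ∩ (β, l] ⊆ I`. -/
def Mkl (β l : W) (F : Set W) : Prop :=
  succ l ∈ F ∧ ∀ ξ ∈ F, β < ξ → ξ ≤ l → IsI ξ

/-- The least element of `F` beyond `β` not in `I` is the successor of a limit. -/
def Mk (β : W) (F : Set W) : Prop := ∃ l, IsSuccLimit l ∧ β < l ∧ Mkl β l F

/-- The subbase of the topology. -/
inductive Sub : Set (YY W) → Prop
  | t1 (k : W) (hk : IsI k) : Sub {x | k ∈ x.F}
  | t1' (k : W) (hk : IsI k) : Sub {x | k ∉ x.F}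
  | t2 (η l : W) (hη : ¬ IsSuccLimit η) : Sub {x | ∃ ξ ∈ x.F, η < ξ ∧ ξ ≤ l}
  | t3 (η l : W) : Sub {x | ∀ ξ ∈ x.F, η < ξ → ¬ ξ ≤ l}
  | t4 (η l : W) (hl : IsSuccLimit l) (h : η < l) :
      Sub {x | succ l ∈ x.F ∧ ∀ ξ ∈ x.F, η < ξ → ¬ ξ ≤ l}
  | o0 (β : W) : Sub {x | ¬ x.a ∧ FinI β x.F}
  | o1 (β : W) : Sub {x | Mk β x.F ∨ (x.a ∧ FinI β x.F)}

instance : TopologicalSpace (YY W) := TopologicalSpace.generateFrom {U | Sub U}

theorem Sub.isOpen {U : Set (YY W)} (h : Sub U) : IsOpen U :=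
  TopologicalSpace.isOpen_generateFrom_of_mem h

/-- `{x | x.F ∩ (β, η] ⊆ I}` is open. -/
theorem isOpen_allI (β η : W) : IsOpen {x : YY W | ∀ ξ ∈ x.F, β < ξ → ξ ≤ η → IsI ξ} := by
  induction η using WellFoundedLT.induction with
  | ind η ih =>
    by_cases hβ : η ≤ β
    · have : {x : YY W | ∀ ξ ∈ x.F, β < ξ → ξ ≤ η → IsI ξ} = univ := by
        ext x
        simp only [mem_ofPred_eq, mem_univ, iff_true]
        intro ξ _ h1 h2
        exact absurd (lt_of_lt_of_le h1 h2) (not_lt.2 hβ)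
      rw [this]
      exact isOpen_univ
    have hβ := not_le.1 hβ
    by_cases hlim : IsSuccLimit η
    · have : {x : YY W | ∀ ξ ∈ x.F, β < ξ → ξ ≤ η → IsI ξ} =
          ⋃ ζ : {ζ // ζ < η}, ({x : YY W | ∀ ξ ∈ x.F, ζ.1 < ξ → ¬ ξ ≤ η} ∩
            {x : YY W | ∀ ξ ∈ x.F, β < ξ → ξ ≤ ζ.1 → IsI ξ}) := by
        ext x
        simp only [mem_ofPred_eq, mem_iUnion, mem_inter_iff]
        constructor
        · intro h
          have hη : η ∉ x.F := fun h' => (h η h' hβ le_rfl).1 hlim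
          obtain ⟨ζ, hζ, h1⟩ := x.good.lc.miss hlim hη
          exact ⟨⟨ζ, hζ⟩, h1, fun ξ h2 h3 h4 => h ξ h2 h3 (h4.trans hζ.le)⟩
        · rintro ⟨⟨ζ, hζ⟩, h1, h2⟩ ξ h3 h4 h5
          by_cases h6 : ξ ≤ ζ
          · exact h2 ξ h3 h4 h6
          · exact absurd h5 (h1 ξ h3 (not_le.1 h6))
      rw [this]
      exact isOpen_iUnion fun ζ => (Sub.t3 ζ.1 η).isOpen.inter (ih ζ.1 ζ.2)
    · obtain ⟨ζ, hζ⟩ : ∃ ζ, succ ζ = η := by
        by_contra hn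
        push Not at hn
        refine hlim ⟨fun hmin => absurd (hmin hβ.le) (not_le.2 hβ), fun a ha => hn a ?_⟩
        exact ha.succ_eq
      subst hζ
      have hζlt := Order.lt_succ ζ
      by_cases hI : IsI (succ ζ)
      · have : {x : YY W | ∀ ξ ∈ x.F, β < ξ → ξ ≤ succ ζ → IsI ξ} =
            {x : YY W | ∀ ξ ∈ x.F, β < ξ → ξ ≤ ζ → IsI ξ} := by
          ext x
          simp only [mem_ofPred_eq]
          constructor
          · exact fun h ξ h1 h2 h3 => h ξ h1 h2 (h3.trans hζlt.le)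
          · intro h ξ h1 h2 h3
            rcases eq_or_lt_of_le h3 with h4 | h4
            · rw [h4]; exact hI
            · exact h ξ h1 h2 (Order.lt_succ_iff.1 h4)
        rw [this]
        exact ih ζ hζlt
      · have : {x : YY W | ∀ ξ ∈ x.F, β < ξ → ξ ≤ succ ζ → IsI ξ} =
            {x : YY W | ∀ ξ ∈ x.F, ζ < ξ → ¬ ξ ≤ succ ζ} ∩
            {x : YY W | ∀ ξ ∈ x.F, β < ξ → ξ ≤ ζ → IsI ξ} := by
          ext x
          simp only [mem_ofPred_eq, mem_inter_iff]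
          constructor
          · intro h
            refine ⟨fun ξ h1 h2 h3 => ?_, fun ξ h1 h2 h3 => h ξ h1 h2 (h3.trans hζlt.le)⟩
            have h4 : ξ = succ ζ := le_antisymm h3 (Order.succ_le_of_lt h2)
            rw [h4] at h1
            exact hI (h _ h1 hβ le_rfl)
          · rintro ⟨h1, h2⟩ ξ h3 h4 h5
            rcases eq_or_lt_of_le h5 with h6 | h6
            · exact absurd h5 (h1 ξ h3 (h6 ▸ hζlt))
            · exact h2 ξ h3 h4 (Order.lt_succ_iff.1 h6)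
        rw [this]
        exact (Sub.t3 ζ (succ ζ)).isOpen.inter (ih ζ hζlt)

theorem isOpen_mkl {β l : W} (hl : IsSuccLimit l) (h : β < l) :
    IsOpen {x : YY W | Mkl β l x.F} := by
  have : {x : YY W | Mkl β l x.F} =
      ⋃ ζ : {ζ // ζ < l}, ({x : YY W | succ l ∈ x.F ∧ ∀ ξ ∈ x.F, ζ.1 < ξ → ¬ ξ ≤ l} ∩
        {x : YY W | ∀ ξ ∈ x.F, β < ξ → ξ ≤ ζ.1 → IsI ξ}) := by
    ext x
    simp only [mem_ofPred_eq, mem_iUnion, mem_inter_iff, Mkl]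
    constructor
    · rintro ⟨h1, h2⟩
      obtain ⟨ζ, hζ, h3⟩ := x.good.lc.miss hl (fun h' => (h2 l h' h le_rfl).1 hl)
      exact ⟨⟨ζ, hζ⟩, ⟨h1, h3⟩, fun ξ h4 h5 h6 => h2 ξ h4 h5 (h6.trans hζ.le)⟩
    · rintro ⟨⟨ζ, hζ⟩, ⟨h1, h2⟩, h3⟩
      refine ⟨h1, fun ξ h4 h5 h6 => ?_⟩
      by_cases h7 : ξ ≤ ζ
      · exact h3 ξ h4 h5 h7
      · exact absurd h6 (h2 ξ h4 (not_le.1 h7))
  rw [this]
  exact isOpen_iUnion fun ζ => (Sub.t4 ζ.1 l hl ζ.2).isOpen.inter (isOpen_allI β ζ.1)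

theorem FinI.union {β : W} {F G : Set W} (h1 : FinI β F) (h2 : FinI β G) : FinI β (F ∪ G) := by
  refine ⟨by rw [union_inter_distrib_right]; exact h1.1.union h2.1, ?_⟩
  rintro ξ (h | h) h3
  · exact h1.2 ξ h h3
  · exact h2.2 ξ h h3

theorem FinI.mono {β : W} {F G : Set W} (h1 : FinI β F) (h : G ⊆ F) : FinI β G :=
  ⟨h1.1.subset (inter_subset_inter_left _ h), fun ξ h2 h3 => h1.2 ξ (h h2) h3⟩

theorem FinI.bdd {β : W} {F : Set W} (h1 : FinI β F) : BddAbove F := by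
  have : Nonempty W := ⟨β⟩
  obtain ⟨b, hb⟩ := h1.1.bddAbove
  refine ⟨max b β, fun x hx => ?_⟩
  by_cases h : β < x
  · exact le_max_of_le_left (hb ⟨hx, h⟩)
  · exact le_max_of_le_right (not_lt.1 h)

theorem isOpen_preim {U : Set (YY W)} (hU : Sub U) :
    IsOpen ((fun p : YY W × YY W => p.1 * p.2) ⁻¹' U) := by
  have hf : ∀ {V : Set (YY W)}, IsOpen V → IsOpen ((Prod.fst : YY W × YY W → YY W) ⁻¹' V) :=
    fun h => h.preimage continuous_fst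
  have hs : ∀ {V : Set (YY W)}, IsOpen V → IsOpen ((Prod.snd : YY W × YY W → YY W) ⁻¹' V) :=
    fun h => h.preimage continuous_snd
  cases hU with
  | t1 k hk =>
    have : ((fun p : YY W × YY W => p.1 * p.2) ⁻¹' {x | k ∈ x.F}) =
        Prod.fst ⁻¹' {x : YY W | k ∈ x.F} ∪ Prod.snd ⁻¹' {x : YY W | k ∈ x.F} := by
      ext p; simp
    rw [this]
    exact (hf (Sub.t1 k hk).isOpen).union (hs (Sub.t1 k hk).isOpen)
  | t1' k hk =>
    have : ((fun p : YY W × YY W => p.1 * p.2) ⁻¹' {x | k ∉ x.F}) =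
        Prod.fst ⁻¹' {x : YY W | k ∉ x.F} ∩ Prod.snd ⁻¹' {x : YY W | k ∉ x.F} := by
      ext p; simp
    rw [this]
    exact (hf (Sub.t1' k hk).isOpen).inter (hs (Sub.t1' k hk).isOpen)
  | t2 η l hη =>
    have : ((fun p : YY W × YY W => p.1 * p.2) ⁻¹' {x | ∃ ξ ∈ x.F, η < ξ ∧ ξ ≤ l}) =
        Prod.fst ⁻¹' {x : YY W | ∃ ξ ∈ x.F, η < ξ ∧ ξ ≤ l} ∪
        Prod.snd ⁻¹' {x : YY W | ∃ ξ ∈ x.F, η < ξ ∧ ξ ≤ l} := by
      ext p
      simp only [mem_preimage, mem_ofPred_eq, mul_F, mem_union]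
      constructor
      · rintro ⟨ξ, h | h, h'⟩
        · exact Or.inl ⟨ξ, h, h'⟩
        · exact Or.inr ⟨ξ, h, h'⟩
      · rintro (⟨ξ, h, h'⟩ | ⟨ξ, h, h'⟩)
        · exact ⟨ξ, Or.inl h, h'⟩
        · exact ⟨ξ, Or.inr h, h'⟩
    rw [this]
    exact (hf (Sub.t2 η l hη).isOpen).union (hs (Sub.t2 η l hη).isOpen)
  | t3 η l =>
    have : ((fun p : YY W × YY W => p.1 * p.2) ⁻¹' {x | ∀ ξ ∈ x.F, η < ξ → ¬ ξ ≤ l}) =
        Prod.fst ⁻¹' {x : YY W | ∀ ξ ∈ x.F, η < ξ → ¬ ξ ≤ l} ∩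
        Prod.snd ⁻¹' {x : YY W | ∀ ξ ∈ x.F, η < ξ → ¬ ξ ≤ l} := by
      ext p
      simp only [mem_preimage, mem_ofPred_eq, mul_F, mem_union, mem_inter_iff]
      exact ⟨fun h => ⟨fun ξ h1 => h ξ (Or.inl h1), fun ξ h1 => h ξ (Or.inr h1)⟩,
        fun h ξ h1 => h1.elim (h.1 ξ) (h.2 ξ)⟩
    rw [this]
    exact (hf (Sub.t3 η l).isOpen).inter (hs (Sub.t3 η l).isOpen)
  | t4 η l hl hlt =>
    have : ((fun p : YY W × YY W => p.1 * p.2) ⁻¹'
        {x | succ l ∈ x.F ∧ ∀ ξ ∈ x.F, η < ξ → ¬ ξ ≤ l}) =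
        (Prod.fst ⁻¹' {x : YY W | succ l ∈ x.F ∧ ∀ ξ ∈ x.F, η < ξ → ¬ ξ ≤ l} ∩
          Prod.snd ⁻¹' {x : YY W | ∀ ξ ∈ x.F, η < ξ → ¬ ξ ≤ l}) ∪
        (Prod.fst ⁻¹' {x : YY W | ∀ ξ ∈ x.F, η < ξ → ¬ ξ ≤ l} ∩
          Prod.snd ⁻¹' {x : YY W | succ l ∈ x.F ∧ ∀ ξ ∈ x.F, η < ξ → ¬ ξ ≤ l}) := by
      ext p
      simp only [mem_preimage, mem_ofPred_eq, mul_F, mem_union, mem_inter_iff]
      constructor
      · rintro ⟨h | h, h'⟩
        · exact Or.inl ⟨⟨h, fun ξ h1 => h' ξ (Or.inl h1)⟩, fun ξ h1 => h' ξ (Or.inr h1)⟩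
        · exact Or.inr ⟨fun ξ h1 => h' ξ (Or.inl h1), ⟨h, fun ξ h1 => h' ξ (Or.inr h1)⟩⟩
      · rintro (⟨⟨h, h1⟩, h2⟩ | ⟨h1, ⟨h, h2⟩⟩)
        · exact ⟨Or.inl h, fun ξ h3 => h3.elim (h1 ξ) (h2 ξ)⟩
        · exact ⟨Or.inr h, fun ξ h3 => h3.elim (h1 ξ) (h2 ξ)⟩
    rw [this]
    exact ((hf (Sub.t4 η l hl hlt).isOpen).inter (hs (Sub.t3 η l).isOpen)).union
      ((hf (Sub.t3 η l).isOpen).inter (hs (Sub.t4 η l hl hlt).isOpen))
  | o0 β =>
    have : ((fun p : YY W × YY W => p.1 * p.2) ⁻¹' {x | ¬ x.a ∧ FinI β x.F}) =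
        Prod.fst ⁻¹' {x : YY W | ¬ x.a ∧ FinI β x.F} ∩
        Prod.snd ⁻¹' {x : YY W | ¬ x.a ∧ FinI β x.F} := by
      ext p
      simp only [mem_preimage, mem_ofPred_eq, mul_F, mul_a, mem_inter_iff]
      constructor
      · rintro ⟨h1, h2⟩
        exact ⟨⟨fun h => h1 (Or.inl h), h2.mono subset_union_left⟩,
          ⟨fun h => h1 (Or.inr h), h2.mono subset_union_right⟩⟩
      · rintro ⟨⟨h1, h2⟩, h3, h4⟩
        exact ⟨fun h => h.elim h1 h3, h2.union h4⟩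
    rw [this]
    exact (hf (Sub.o0 β).isOpen).inter (hs (Sub.o0 β).isOpen)
  | o1 β =>
    have : ((fun p : YY W × YY W => p.1 * p.2) ⁻¹' {x | Mk β x.F ∨ (x.a ∧ FinI β x.F)}) =
        ((Prod.fst ⁻¹' {x : YY W | ¬ x.a ∧ FinI β x.F} ∩
          Prod.snd ⁻¹' {x : YY W | Mk β x.F ∨ (x.a ∧ FinI β x.F)}) ∪
        (Prod.fst ⁻¹' {x : YY W | Mk β x.F ∨ (x.a ∧ FinI β x.F)} ∩
          Prod.snd ⁻¹' {x : YY W | ¬ x.a ∧ FinI β x.F})) ∪
        (Prod.fst ⁻¹' {x : YY W | Mk β x.F ∨ (x.a ∧ FinI β x.F)} ∩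
          Prod.snd ⁻¹' {x : YY W | Mk β x.F ∨ (x.a ∧ FinI β x.F)}) ∪
        ⋃ l : {l : W // IsSuccLimit l ∧ β < l},
          ((Prod.fst ⁻¹' {x : YY W | Mkl β l.1 x.F} ∩
            Prod.snd ⁻¹' {x : YY W | ∀ ξ ∈ x.F, β < ξ → ξ ≤ l.1 → IsI ξ}) ∪
          (Prod.fst ⁻¹' {x : YY W | ∀ ξ ∈ x.F, β < ξ → ξ ≤ l.1 → IsI ξ} ∩
            Prod.snd ⁻¹' {x : YY W | Mkl β l.1 x.F})) := by
      ext p
      simp only [mem_preimage, mem_ofPred_eq, mul_F, mul_a, mem_inter_iff, mem_union, mem_iUnion]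
      have hmk : ∀ l, Mkl β l (p.1.F ∪ p.2.F) ↔
          (Mkl β l p.1.F ∧ ∀ ξ ∈ p.2.F, β < ξ → ξ ≤ l → IsI ξ) ∨
          ((∀ ξ ∈ p.1.F, β < ξ → ξ ≤ l → IsI ξ) ∧ Mkl β l p.2.F) := by
        intro l
        constructor
        · rintro ⟨h | h, h1⟩
          · exact Or.inl ⟨⟨h, fun ξ h2 => h1 ξ (Or.inl h2)⟩, fun ξ h2 => h1 ξ (Or.inr h2)⟩
          · exact Or.inr ⟨fun ξ h2 => h1 ξ (Or.inl h2), ⟨h, fun ξ h2 => h1 ξ (Or.inr h2)⟩⟩
        · rintro (⟨⟨h, h1⟩, h2⟩ | ⟨h1, ⟨h, h2⟩⟩)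
          · exact ⟨Or.inl h, fun ξ h3 => h3.elim (h1 ξ) (h2 ξ)⟩
          · exact ⟨Or.inr h, fun ξ h3 => h3.elim (h1 ξ) (h2 ξ)⟩
      constructor
      · rintro (⟨l, hl, hβl, h⟩ | ⟨h, h'⟩)
        · exact Or.inr ⟨⟨l, hl, hβl⟩, (hmk l).1 h⟩
        · have h1 : FinI β p.1.F := h'.mono subset_union_left
          have h2 : FinI β p.2.F := h'.mono subset_union_right
          by_cases h3 : p.1.a <;> by_cases h4 : p.2.a
          · exact Or.inl (Or.inr ⟨Or.inr ⟨h3, h1⟩, Or.inr ⟨h4, h2⟩⟩)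
          · exact Or.inl (Or.inl (Or.inr ⟨Or.inr ⟨h3, h1⟩, ⟨h4, h2⟩⟩))
          · exact Or.inl (Or.inl (Or.inl ⟨⟨h3, h1⟩, Or.inr ⟨h4, h2⟩⟩))
          · exact absurd h (fun h => h.elim h3 h4)
      · rintro (((⟨⟨h1, h2⟩, h3 | ⟨h3, h4⟩⟩ | ⟨h3 | ⟨h3, h4⟩, ⟨h1, h2⟩⟩) | ⟨h1, h2⟩) | ⟨⟨l, hl, hβl⟩, h⟩)
        · obtain ⟨l, hl, hβl, h5⟩ := h3
          exact Or.inl ⟨l, hl, hβl, (hmk l).2 (Or.inr ⟨fun ξ h6 h7 _ => h2.2 ξ h6 h7, h5⟩)⟩
        · exact Or.inr ⟨Or.inr h3, h2.union h4⟩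
        · obtain ⟨l, hl, hβl, h5⟩ := h3
          exact Or.inl ⟨l, hl, hβl, (hmk l).2 (Or.inl ⟨h5, fun ξ h6 h7 _ => h2.2 ξ h6 h7⟩)⟩
        · exact Or.inr ⟨Or.inl h3, h4.union h2⟩
        · rcases h1 with ⟨l, hl, hβl, h3⟩ | ⟨h3, h4⟩ <;> rcases h2 with ⟨l', hl', hβl', h5⟩ | ⟨h5, h6⟩
          · rcases le_total l l' with h | h
            · exact Or.inl ⟨l, hl, hβl, (hmk l).2 (Or.inl ⟨h3, fun ξ h6 h7 h8 =>
                h5.2 ξ h6 h7 (h8.trans h)⟩)⟩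
            · exact Or.inl ⟨l', hl', hβl', (hmk l').2 (Or.inr ⟨fun ξ h6 h7 h8 =>
                h3.2 ξ h6 h7 (h8.trans h), h5⟩)⟩
          · exact Or.inl ⟨l, hl, hβl, (hmk l).2 (Or.inl ⟨h3, fun ξ h7 h8 _ => h6.2 ξ h7 h8⟩)⟩
          · exact Or.inl ⟨l', hl', hβl', (hmk l').2 (Or.inr ⟨fun ξ h7 h8 _ => h4.2 ξ h7 h8, h5⟩)⟩
          · exact Or.inr ⟨Or.inl h3, h4.union h6⟩
        · exact Or.inl ⟨l, hl, hβl, (hmk l).2 h⟩
    rw [this]
    have h0 := (Sub.o0 β : Sub {x : YY W | ¬ x.a ∧ FinI β x.F}).isOpen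
    have h1 := (Sub.o1 β : Sub {x : YY W | Mk β x.F ∨ (x.a ∧ FinI β x.F)}).isOpen
    refine ((((hf h0).inter (hs h1)).union ((hf h1).inter (hs h0))).union
      ((hf h1).inter (hs h1))).union (isOpen_iUnion fun l => ?_)
    exact ((hf (isOpen_mkl l.2.1 l.2.2)).inter (hs (isOpen_allI β l.1))).union
      ((hf (isOpen_allI β l.1)).inter (hs (isOpen_mkl l.2.1 l.2.2)))

instance : ContinuousMul (YY W) :=
  ⟨continuous_generateFrom_iff.2 fun _ hU => isOpen_preim hU⟩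

/-! ### Hausdorffness -/

theorem sep_of_mem {x y : YY W} {k : W} (hx : k ∈ x.F) (hy : k ∉ y.F) :
    ∃ u v : Set (YY W), IsOpen u ∧ IsOpen v ∧ x ∈ u ∧ y ∈ v ∧ Disjoint u v := by
  have lim : ∀ {x y : YY W} {k : W}, IsSuccLimit k → k ∈ x.F → k ∉ y.F →
      ∃ u v : Set (YY W), IsOpen u ∧ IsOpen v ∧ x ∈ u ∧ y ∈ v ∧ Disjoint u v := by
    intro x y k hk hx hy
    obtain ⟨η, h1, h2⟩ := y.good.lc.miss hk hy
    have h3 : succ η < k := hk.succ_lt h1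
    refine ⟨_, _, (Sub.t2 (succ η) k (not_limit_succ η)).isOpen, (Sub.t3 (succ η) k).isOpen,
      ⟨k, hx, h3, le_rfl⟩, fun ξ h4 h5 => h2 ξ h4 ((Order.lt_succ η).trans h5), ?_⟩
    rw [Set.disjoint_left]
    rintro z ⟨ξ, h4, h5, h6⟩ h7
    exact h7 ξ h4 h5 h6
  by_cases hI : IsI k
  · refine ⟨_, _, (Sub.t1 k hI).isOpen, (Sub.t1' k hI).isOpen, hx, hy, ?_⟩
    rw [Set.disjoint_left]
    exact fun z h1 h2 => h2 h1
  by_cases hk : IsSuccLimit k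
  · exact lim hk hx hy
  obtain ⟨l, hl, rfl⟩ : ∃ l : W, IsSuccLimit l ∧ succ l = k := by
    by_contra hn
    push Not at hn
    exact hI ⟨hk, hn⟩
  have hly : l ∉ y.F := fun h => hy (y.good.sm l hl h)
  by_cases hlx : l ∈ x.F
  · exact lim hl hlx hly
  obtain ⟨η, h1, h2⟩ := y.good.lc.miss hl hly
  obtain ⟨η', h1', h2'⟩ := x.good.lc.miss hl hlx
  refine ⟨_, _, (Sub.t4 (max η η') l hl (max_lt h1 h1')).isOpen,
    (Sub.t3 (max η η') (succ l)).isOpen, ⟨hx, fun ξ h4 h5 =>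
      h2' ξ h4 (lt_of_le_of_lt (le_max_right _ _) h5)⟩, fun ξ h4 h5 h6 => ?_, ?_⟩
  · rcases eq_or_lt_of_le h6 with h7 | h7
    · exact hy (h7 ▸ h4)
    · exact h2 ξ h4 (lt_of_le_of_lt (le_max_left _ _) h5) (Order.lt_succ_iff.1 h7)
  · rw [Set.disjoint_left]
    rintro z ⟨h3, h4⟩ h5
    exact h5 (succ l) h3 ((max_lt h1 h1').trans (Order.lt_succ l)) le_rfl

theorem sep_of_flag {x y : YY W} (h : x.F = y.F) (hx : ¬ x.a) (hy : y.a) :
    ∃ u v : Set (YY W), IsOpen u ∧ IsOpen v ∧ x ∈ u ∧ y ∈ v ∧ Disjoint u v := by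
  have hb : BddAbove x.F := not_not.1 fun h' => hx (x.flag h')
  obtain ⟨β, hβ⟩ := hb
  have hfin : FinI β x.F := by
    have : x.F ∩ Ioi β = ∅ := by
      ext z
      simp only [mem_inter_iff, mem_Ioi, mem_empty_iff_false, iff_false, not_and, not_lt]
      exact fun h => hβ h
    refine ⟨by rw [this]; exact finite_empty, fun ξ h1 h2 => absurd (hβ h1) (not_le.2 h2)⟩
  refine ⟨_, _, (Sub.o0 β).isOpen, (Sub.o1 β).isOpen, ⟨hx, hfin⟩, Or.inr ⟨hy, h ▸ hfin⟩, ?_⟩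
  rw [Set.disjoint_left]
  rintro z ⟨h1, h2⟩ (⟨l, hl, h3, h4⟩ | ⟨h3, _⟩)
  · exact (h2.2 (succ l) h4.1 (h3.trans (Order.lt_succ l))).2 l hl rfl
  · exact h1 h3

instance : T2Space (YY W) := by
  refine ⟨fun x y hne => ?_⟩
  have swap : ∀ {x y : YY W},
      (∃ u v : Set (YY W), IsOpen u ∧ IsOpen v ∧ x ∈ u ∧ y ∈ v ∧ Disjoint u v) →
      ∃ u v : Set (YY W), IsOpen u ∧ IsOpen v ∧ y ∈ u ∧ x ∈ v ∧ Disjoint u v := by
    rintro x y ⟨u, v, h1, h2, h3, h4, h5⟩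
    exact ⟨v, u, h2, h1, h4, h3, h5.symm⟩
  by_cases h1 : x.F ⊆ y.F
  · by_cases h2 : y.F ⊆ x.F
    · have h3 : x.F = y.F := Subset.antisymm h1 h2
      by_cases hx : x.a
      · by_cases hy : y.a
        · exact absurd (YY.ext h3 (by simp [hx, hy])) hne
        · exact swap (sep_of_flag h3.symm hy hx)
      · by_cases hy : y.a
        · exact sep_of_flag h3 hx hy
        · exact absurd (YY.ext h3 (by simp [hx, hy])) hne
    · obtain ⟨k, hk, hk'⟩ := not_subset.1 h2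
      exact swap (sep_of_mem hk hk')
  · obtain ⟨k, hk, hk'⟩ := not_subset.1 h1
    exact sep_of_mem hk hk'

/-! ### The identity element `y₀ = (∅, False)` -/

/-- The identity. -/
def y0 [Nonempty W] : YY W := ⟨∅, False, good_empty, fun h => h bddAbove_empty⟩

/-- The subsemilattice of all elements other than the identity. -/
def XX (W : Type*) [LinearOrder W] [WellFoundedLT W] [SuccOrder W] [NoMaxOrder W] :
    Subsemigroup (YY W) where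
  carrier := {x | x.F.Nonempty ∨ x.a}
  mul_mem' := by
    rintro x y (h | h) _
    · exact Or.inl (h.mono subset_union_left)
    · exact Or.inr (Or.inl h)

/-! ### Neighbourhood induction -/

theorem nhds_induct {x : YY W} (R : Set (YY W) → Prop) (huniv : R univ)
    (hmono : ∀ U V, U ⊆ V → R U → R V) (hinter : ∀ U V, R U → R V → R (U ∩ V))
    (hsub : ∀ U, Sub U → x ∈ U → R U) : ∀ U, IsOpen U → x ∈ U → R U := by
  intro U hU
  induction hU with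
  | basic s hs => exact fun h => hsub s hs h
  | univ => exact fun _ => huniv
  | inter s t _ _ ihs iht => exact fun h => hinter s t (ihs h.1) (iht h.2)
  | sUnion S _ ih =>
    rintro ⟨t, ht, hxt⟩
    exact hmono t _ (subset_sUnion_of_mem ht) (ih t ht hxt)

theorem nle_trans {x y z : YY W} (h1 : NLE x y) (h2 : NLE y z) : NLE x z := by
  rw [nle_iff] at *
  exact ⟨h2.1.trans h1.1, fun h => h1.2 (h2.2 h)⟩

theorem nle_refl (x : YY W) : NLE x x := mul_self' x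

/-! ### Infima -/

/-- The infimum of `C`. -/
def infY (C : Set (YY W)) : YY W where
  F := hull {x | ∃ c ∈ C, x ∈ c.F}
  a := (∃ c ∈ C, c.a) ∨ ¬ BddAbove {x | ∃ c ∈ C, x ∈ c.F}
  good := good_hull (by
    rintro l hl ⟨c, hc, h⟩
    exact ⟨c, hc, c.good.sm l hl h⟩)
  flag := fun h => Or.inr (fun h' => h (bdd_hull h'))

theorem infY_le {C : Set (YY W)} {c : YY W} (hc : c ∈ C) : NLE (infY C) c :=
  nle_iff.2 ⟨fun _ hx => Or.inl ⟨c, hc, hx⟩, fun h => Or.inl ⟨c, hc, h⟩⟩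

theorem le_infY {C : Set (YY W)} {m : YY W} (h : ∀ c ∈ C, NLE m c) : NLE m (infY C) := by
  simp only [nle_iff] at h
  have h1 : {x | ∃ c ∈ C, x ∈ c.F} ⊆ m.F := by
    rintro x ⟨c, hc, hx⟩
    exact (h c hc).1 hx
  refine nle_iff.2 ⟨hull_subset m.good h1, ?_⟩
  rintro (⟨c, hc, ha⟩ | hb)
  · exact (h c hc).2 ha
  · exact m.flag (fun h2 => hb (h2.mono h1))

theorem infY_nhds {C : Set (YY W)} (hne : C.Nonempty)
    (hch : ∀ c ∈ C, ∀ d ∈ C, NLE c d ∨ NLE d c) :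
    ∀ U, IsOpen U → infY C ∈ U → ∃ c₀ ∈ C, ∀ c ∈ C, NLE c c₀ → c ∈ U := by
  refine nhds_induct (fun U => ∃ c₀ ∈ C, ∀ c ∈ C, NLE c c₀ → c ∈ U) ?_ ?_ ?_ ?_
  · obtain ⟨c, hc⟩ := hne
    exact ⟨c, hc, fun _ _ _ => mem_univ _⟩
  · rintro U V hUV ⟨c₀, h0, h⟩
    exact ⟨c₀, h0, fun c hc h1 => hUV (h c hc h1)⟩
  · rintro U V ⟨c₀, h0, h⟩ ⟨c₁, h1, h'⟩
    rcases hch c₀ h0 c₁ h1 with h2 | h2
    · exact ⟨c₀, h0, fun c hc h3 => ⟨h c hc h3, h' c hc (nle_trans h3 h2)⟩⟩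
    · exact ⟨c₁, h1, fun c hc h3 => ⟨h c hc (nle_trans h3 h2), h' c hc h3⟩⟩
  · intro U hU hx
    have hsub : ∀ c ∈ C, c.F ⊆ (infY C).F := fun c hc => (nle_iff.1 (infY_le hc)).1
    obtain ⟨d, hd⟩ := hne
    cases hU with
    | t1 k hk =>
      obtain ⟨c, hc, h1⟩ := hull_isI hk hx
      exact ⟨c, hc, fun c' _ h => (nle_iff.1 h).1 h1⟩
    | t1' k hk => exact ⟨d, hd, fun c hc _ h => hx (hsub c hc h)⟩
    | t2 η l hη =>
      obtain ⟨ξ, h1, h2, h3⟩ := hx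
      obtain ⟨ζ, ⟨c, hc, h4⟩, h5, h6⟩ := hull_hit h1 hη h2
      exact ⟨c, hc, fun c' _ h => ⟨ζ, (nle_iff.1 h).1 h4, h5, h6.trans h3⟩⟩
    | t3 η l => exact ⟨d, hd, fun c hc _ ξ h => hx ξ (hsub c hc h)⟩
    | t4 η l hl hlt =>
      obtain ⟨c, hc, h1⟩ := hull_succ hx.1 (fun h => hx.2 l h hlt le_rfl)
      exact ⟨c, hc, fun c' hc' h => ⟨(nle_iff.1 h).1 h1, fun ξ h => hx.2 ξ (hsub c' hc' h)⟩⟩
    | o0 β =>
      exact ⟨d, hd, fun c hc _ => ⟨fun h => hx.1 (Or.inl ⟨c, hc, h⟩), hx.2.mono (hsub c hc)⟩⟩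
    | o1 β =>
      rcases hx with ⟨l, hl, hβl, h1, h2⟩ | ⟨h1, h2⟩
      · obtain ⟨c, hc, h3⟩ := hull_succ h1 (fun h => (h2 l h hβl le_rfl).1 hl)
        exact ⟨c, hc, fun c' hc' h => Or.inl ⟨l, hl, hβl, (nle_iff.1 h).1 h3,
          fun ξ h => h2 ξ (hsub c' hc' h)⟩⟩
      · rcases h1 with ⟨c, hc, h1⟩ | h1
        · exact ⟨c, hc, fun c' hc' h => Or.inr ⟨(nle_iff.1 h).2 h1, h2.mono (hsub c' hc')⟩⟩
        · exact absurd (h2.bdd.mono (subset_hull _)) h1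

/-! ### Suprema -/

/-- The supremum of `C`. -/
def supY (C : Set (YY W)) : YY W where
  F := {x | ∀ c ∈ C, x ∈ c.F}
  a := ∀ c ∈ C, c.a
  good := Good.iInter (fun c _ => c.good)
  flag := fun h c hc => c.flag (fun h' => h (h'.mono (fun _ hx => hx c hc)))

theorem le_supY {C : Set (YY W)} {c : YY W} (hc : c ∈ C) : NLE c (supY C) :=
  nle_iff.2 ⟨fun _ hx => hx c hc, fun h => h c hc⟩

theorem supY_le {C : Set (YY W)} {m : YY W} (h : ∀ c ∈ C, NLE c m) : NLE (supY C) m := by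
  simp only [nle_iff] at h
  exact nle_iff.2 ⟨fun x hx c hc => (h c hc).1 hx, fun ha c hc => (h c hc).2 ha⟩

theorem lc_Ioc (η l : W) : LC {x | η < x ∧ x ≤ l} := by
  intro m hm hc
  obtain ⟨a, ha⟩ : ∃ a, a < m := not_isMin_iff.1 hm.1
  obtain ⟨ξ, ⟨h1, _⟩, _, h3⟩ := hc a ha
  refine ⟨h1.trans h3, not_lt.1 fun h4 => ?_⟩
  obtain ⟨ξ', ⟨_, h5⟩, h6, _⟩ := hc l h4
  exact absurd h6 (not_lt.2 h5)

theorem lc_Ioc_nI (η l : W) : LC {x | η < x ∧ x ≤ l ∧ ¬ IsI x} := by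
  intro m hm hc
  have h := lc_Ioc η l m hm (fun ζ hζ => by
    obtain ⟨ξ, h1, h2⟩ := hc ζ hζ
    exact ⟨ξ, ⟨h1.1, h1.2.1⟩, h2⟩)
  exact ⟨h.1, h.2, fun h' => h'.1 hm⟩

theorem lc_diff {β : W} {P : Set W} (hP : ∀ ξ ∈ P, β < ξ → IsI ξ) : LC {x | β < x ∧ x ∉ P} := by
  intro m hm hc
  obtain ⟨a, ha⟩ : ∃ a, a < m := not_isMin_iff.1 hm.1
  obtain ⟨ξ, ⟨h1, _⟩, _, h3⟩ := hc a ha
  exact ⟨h1.trans h3, fun h => (hP m h (h1.trans h3)).1 hm⟩

theorem sup_miss {C : Set (YY W)} (hch : ∀ c ∈ C, ∀ d ∈ C, NLE c d ∨ NLE d c)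
    {D : Set W} (hD : LC D) (hb : ∃ c ∈ C, BddAbove (c.F ∩ D))
    (h : ∀ x ∈ D, x ∉ (supY C).F) : ∃ c₀ ∈ C, ∀ x ∈ D, x ∉ c₀.F := by
  by_contra hn
  push Not at hn
  obtain ⟨x, hx, h1⟩ := compact_chain C YY.F (fun c hc d hd =>
    (hch c hc d hd).symm.imp (fun h => (nle_iff.1 h).1) (fun h => (nle_iff.1 h).1))
    (fun c _ => c.good.lc) D hD hb (fun c hc => by
      obtain ⟨x, h1, h2⟩ := hn c hc
      exact ⟨x, h2, h1⟩)
  exact h x hx h1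

theorem sup_fin {C : Set (YY W)} (hch : ∀ c ∈ C, ∀ d ∈ C, NLE c d ∨ NLE d c)
    {β : W} (hb : ∃ c ∈ C, BddAbove c.F) (h : FinI β (supY C).F) :
    ∃ c₀ ∈ C, FinI β c₀.F := by
  obtain ⟨c, hc, hb⟩ := hb
  obtain ⟨c₀, hc₀, h1⟩ := sup_miss hch (lc_diff h.2) ⟨c, hc, hb.mono inter_subset_left⟩
    (fun x hx => hx.2)
  have h2 : ∀ ξ ∈ c₀.F, β < ξ → ξ ∈ (supY C).F := fun ξ h3 h4 => by
    by_contra h5
    exact h1 ξ ⟨h4, h5⟩ h3
  exact ⟨c₀, hc₀, h.1.subset (fun ξ h3 => ⟨h2 ξ h3.1 h3.2, h3.2⟩),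
    fun ξ h3 h4 => h.2 ξ (h2 ξ h3 h4) h4⟩

theorem supY_sub {C : Set (YY W)} (hne : C.Nonempty)
    (hch : ∀ c ∈ C, ∀ d ∈ C, NLE c d ∨ NLE d c) {U : Set (YY W)} (hU : Sub U)
    (hs : supY C ∈ U) :
    (∃ c₀ ∈ C, ∀ x, NLE c₀ x → NLE x (supY C) → x ∈ U) ∨
    ((∀ c ∈ C, ¬ BddAbove c.F) ∧ BddAbove (supY C).F ∧
      ∃ β, FinI β (supY C).F ∧ U = {x | Mk β x.F ∨ (x.a ∧ FinI β x.F)}) := by
  obtain ⟨d, hd⟩ := hne
  cases hU with
  | t1 k hk => exact Or.inl ⟨d, hd, fun x _ h => (nle_iff.1 h).1 hs⟩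
  | t1' k hk =>
    have h1 : ¬ ∀ c ∈ C, k ∈ c.F := hs
    push Not at h1
    obtain ⟨c, hc, h2⟩ := h1
    exact Or.inl ⟨c, hc, fun x h _ h3 => h2 ((nle_iff.1 h).1 h3)⟩
  | t2 η l hη =>
    obtain ⟨ξ, h1, h2⟩ := hs
    exact Or.inl ⟨d, hd, fun x _ h => ⟨ξ, (nle_iff.1 h).1 h1, h2⟩⟩
  | t3 η l =>
    obtain ⟨c, hc, h1⟩ := sup_miss hch (lc_Ioc η l) ⟨d, hd, ⟨l, fun x hx => hx.2.2⟩⟩
      (fun x hx h => hs x h hx.1 hx.2)
    exact Or.inl ⟨c, hc, fun x h _ ξ h3 h4 h5 => h1 ξ ⟨h4, h5⟩ ((nle_iff.1 h).1 h3)⟩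
  | t4 η l hl hlt =>
    obtain ⟨c, hc, h1⟩ := sup_miss hch (lc_Ioc η l) ⟨d, hd, ⟨l, fun x hx => hx.2.2⟩⟩
      (fun x hx h => hs.2 x h hx.1 hx.2)
    exact Or.inl ⟨c, hc, fun x h h' => ⟨(nle_iff.1 h').1 hs.1,
      fun ξ h3 h4 h5 => h1 ξ ⟨h4, h5⟩ ((nle_iff.1 h).1 h3)⟩⟩
  | o0 β =>
    have h1 : ¬ ∀ c ∈ C, c.a := hs.1
    push Not at h1
    obtain ⟨c, hc, h2⟩ := h1
    have hb : BddAbove c.F := not_not.1 fun h => h2 (c.flag h)
    obtain ⟨c', hc', h3⟩ := sup_fin hch ⟨c, hc, hb⟩ hs.2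
    rcases hch c hc c' hc' with h | h
    · exact Or.inl ⟨c', hc', fun x h4 _ => ⟨fun h5 => h2 ((nle_iff.1 (nle_trans h h4)).2 h5),
        h3.mono (nle_iff.1 h4).1⟩⟩
    · exact Or.inl ⟨c, hc, fun x h4 _ => ⟨fun h5 => h2 ((nle_iff.1 h4).2 h5),
        h3.mono (nle_iff.1 (nle_trans h h4)).1⟩⟩
  | o1 β =>
    rcases hs with ⟨l, hl, hβl, h1, h2⟩ | ⟨h1, h2⟩
    · obtain ⟨c, hc, h3⟩ := sup_miss hch (lc_Ioc_nI β l) ⟨d, hd, ⟨l, fun x hx => hx.2.2.1⟩⟩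
        (fun x hx h => hx.2.2 (h2 x h hx.1 hx.2.1))
      exact Or.inl ⟨c, hc, fun x h h' => Or.inl ⟨l, hl, hβl, (nle_iff.1 h').1 h1,
        fun ξ h4 h5 h6 => by
          by_contra h7
          exact h3 ξ ⟨h5, h6, h7⟩ ((nle_iff.1 h).1 h4)⟩⟩
    · by_cases hb : ∃ c ∈ C, BddAbove c.F
      · obtain ⟨c', hc', h3⟩ := sup_fin hch hb h2
        exact Or.inl ⟨c', hc', fun x h4 h5 => Or.inr ⟨(nle_iff.1 h5).2 h1,
          h3.mono (nle_iff.1 h4).1⟩⟩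
      · push Not at hb
        exact Or.inr ⟨hb, h2.bdd, β, h2, rfl⟩

/-- The key existence lemma for the special case. -/
theorem exists_special (hcount : ∀ T : Set W, T.Countable → BddAbove T)
    {MM : Set (YY W)} (hMch : ∀ c ∈ MM, ∀ d ∈ MM, NLE c d ∨ NLE d c)
    (hMmax : ∀ x : YY W, x.a → (∀ m ∈ MM, NLE x m ∨ NLE m x) → x ∈ MM)
    {C : Set (YY W)} (hCM : C ⊆ MM) (hunb : ∀ c ∈ C, ¬ BddAbove c.F)
    {β : W} (hβ : ∀ ξ ∈ (supY C).F, ξ ≤ β) {c₀ : YY W} (hc₀ : c₀ ∈ C) :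
    ∃ x ∈ MM, NLE c₀ x ∧ (∃ c ∈ C, NLE x c) ∧
      ∃ l, IsSuccLimit l ∧ β < l ∧ succ l ∈ x.F ∧ ∀ ξ ∈ x.F, β < ξ → ¬ ξ ≤ l := by
  have hch : ∀ c ∈ C, ∀ d ∈ C, NLE c d ∨ NLE d c := fun c hc d hd =>
    hMch c (hCM hc) d (hCM hd)
  have hleast : ∀ c ∈ C, ∃ μ, IsLeast (c.F ∩ Ioi β) μ := fun c hc => by
    refine exists_least ?_
    by_contra hn
    refine hunb c hc ⟨β, fun x hx => not_lt.1 fun h => hn ⟨x, hx, h⟩⟩
  let S : Set W := {μ | ∃ c ∈ C, NLE c₀ c ∧ IsLeast (c.F ∩ Ioi β) μ}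
  have hS : ∀ w, ∃ s ∈ S, w < s := by
    intro w
    obtain ⟨c₁, hc₁, h1⟩ := sup_miss hch (lc_Ioc β w) ⟨c₀, hc₀, ⟨w, fun x hx => hx.2.2⟩⟩
      (fun x hx h => absurd (hβ x h) (not_le.2 hx.1))
    obtain ⟨c₂, hc₂, h2, h3⟩ : ∃ c₂ ∈ C, NLE c₀ c₂ ∧ NLE c₁ c₂ := by
      rcases hch c₀ hc₀ c₁ hc₁ with h | h
      · exact ⟨c₁, hc₁, h, nle_refl _⟩
      · exact ⟨c₀, hc₀, nle_refl _, h⟩
    obtain ⟨μ, hμ⟩ := hleast c₂ hc₂
    refine ⟨μ, ⟨c₂, hc₂, h2, hμ⟩, not_le.1 fun h4 => ?_⟩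
    exact h1 μ ⟨hμ.1.2, h4⟩ ((nle_iff.1 h3).1 hμ.1.1)
  obtain ⟨l, hl, hcof, hβl⟩ := exists_limit hcount β hS
  have claim1 : ∀ c ∈ C, ∀ μ, IsLeast (c.F ∩ Ioi β) μ → μ < l → l ∈ c.F := by
    intro c hc μ hμ hμl
    refine c.good.lc l hl (fun η hη => ?_)
    obtain ⟨ν, ⟨c', hc', _, hν⟩, h1, h2⟩ := hcof (max η μ) (max_lt hη hμl)
    rcases hch c hc c' hc' with h | h
    · exact ⟨ν, (nle_iff.1 h).1 hν.1.1, lt_of_le_of_lt (le_max_left _ _) h1, h2⟩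
    · have h3 : ν ≤ μ := hν.2 ⟨(nle_iff.1 h).1 hμ.1.1, hμ.1.2⟩
      exact absurd (lt_of_le_of_lt (le_max_right _ _) h1) (not_lt.2 h3)
  have hlc₀ : l ∈ c₀.F := by
    obtain ⟨μ, hμ⟩ := hleast c₀ hc₀
    obtain ⟨ν, ⟨c', hc', h1, hν⟩, _, h2⟩ := hcof β hβl
    exact claim1 c₀ hc₀ μ hμ (lt_of_le_of_lt (hμ.2 ⟨(nle_iff.1 h1).1 hν.1.1, hν.1.2⟩) h2)
  obtain ⟨c₁, hc₁, hlc₁⟩ : ∃ c ∈ C, l ∉ c.F := by
    by_contra hn
    push Not at hn
    exact absurd (hβ l hn) (not_le.2 hβl)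
  have hbelow : ∀ m ∈ MM, l ∈ m.F → NLE m c₁ := fun m hm hlm => by
    rcases hMch m hm c₁ (hCM hc₁) with h | h
    · exact h
    · exact absurd ((nle_iff.1 h).1 hlm) hlc₁
  let Fp : Set W := {x | ∀ m ∈ {m | m ∈ MM ∧ l ∈ m.F}, x ∈ YY.F m}
  have hFp : Good Fp := Good.iInter (fun m _ => m.good)
  have claim2 : ∀ ξ ∈ Fp, β < ξ → ¬ ξ < l := by
    intro ξ hξ h1 h2
    obtain ⟨ν, ⟨c', hc', _, hν⟩, h3, h4⟩ := hcof ξ h2
    have h5 : ξ ∈ c'.F := hξ c' ⟨hCM hc', claim1 c' hc' ν hν h4⟩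
    exact absurd (hν.2 ⟨h5, h1⟩) (not_le.2 h3)
  have hlFp : l ∈ Fp := fun m hm => hm.2
  let x : YY W :=
    { F := {ξ | ξ ∈ Fp ∧ ξ ≠ l}
      a := True
      good := by
        refine ⟨fun m hm hc => ⟨hFp.lc m hm (fun η hη => ?_), ?_⟩, fun m hm h => ⟨hFp.sm m hm h.1, ?_⟩⟩
        · obtain ⟨ξ, h1, h2⟩ := hc η hη
          exact ⟨ξ, h1.1, h2⟩
        · rintro rfl
          obtain ⟨ξ, h1, h2, h3⟩ := hc β hβl
          exact claim2 ξ h1.1 h2 h3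
        · rintro rfl
          exact not_limit_succ m hl
      flag := fun _ => trivial }
  have hx1 : ∀ m ∈ MM, l ∈ m.F → NLE m x := fun m hm hlm =>
    nle_iff.2 ⟨fun ξ hξ => hξ.1 m ⟨hm, hlm⟩, fun _ =>
      (nle_iff.1 (hbelow m hm hlm)).2 (c₁.flag (hunb c₁ hc₁))⟩
  have hx2 : ∀ m ∈ MM, l ∉ m.F → NLE x m := fun m hm hlm => by
    refine nle_iff.2 ⟨fun ξ hξ => ⟨fun m' hm' => ?_, fun h => hlm (h ▸ hξ)⟩, fun _ => trivial⟩
    rcases hMch m hm m' hm'.1 with h | h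
    · exact absurd ((nle_iff.1 h).1 hm'.2) hlm
    · exact (nle_iff.1 h).1 hξ
  have hxM : x ∈ MM := hMmax x trivial (fun m hm => by
    by_cases h : l ∈ m.F
    · exact Or.inr (hx1 m hm h)
    · exact Or.inl (hx2 m hm h))
  refine ⟨x, hxM, hx1 c₀ (hCM hc₀) hlc₀, ⟨c₁, hc₁, hx2 c₁ (hCM hc₁) hlc₁⟩, l, hl, hβl,
    ⟨hFp.sm l hl hlFp, (Order.lt_succ l).ne'⟩, fun ξ h1 h2 h3 => ?_⟩
  exact claim2 ξ h1.1 h2 (lt_of_le_of_ne h3 h1.2)

theorem sup_closure (hcount : ∀ T : Set W, T.Countable → BddAbove T)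
    {MM : Set (YY W)} (hMch : ∀ c ∈ MM, ∀ d ∈ MM, NLE c d ∨ NLE d c)
    (hMmax : ∀ x : YY W, x.a → (∀ m ∈ MM, NLE x m ∨ NLE m x) → x ∈ MM)
    {C : Set (YY W)} (hne : C.Nonempty) (hCM : C ⊆ MM) :
    ∀ U, IsOpen U → supY C ∈ U → ∃ x ∈ U, x ∈ MM ∧ ∃ c ∈ C, NLE x c := by
  intro U hU hsU
  have hch : ∀ c ∈ C, ∀ d ∈ C, NLE c d ∨ NLE d c := fun c hc d hd =>
    hMch c (hCM hc) d (hCM hd)
  by_cases hsp : (∀ c ∈ C, ¬ BddAbove c.F) ∧ BddAbove (supY C).F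
  · obtain ⟨hunb, b, hb⟩ := hsp
    obtain ⟨β₀, h⟩ := nhds_induct (x := supY C)
      (fun U => ∃ β₀, ∀ β, β₀ ≤ β → ∃ c₀ ∈ C, ∀ x, (∃ l, IsSuccLimit l ∧ β < l ∧ succ l ∈ x.F ∧
        ∀ ξ ∈ x.F, β < ξ → ¬ ξ ≤ l) → NLE c₀ x → NLE x (supY C) → x ∈ U)
      (by
        obtain ⟨c, hc⟩ := hne
        exact ⟨b, fun β _ => ⟨c, hc, fun _ _ _ _ => mem_univ _⟩⟩)
      (by
        rintro U V hUV ⟨β₀, h⟩
        refine ⟨β₀, fun β hβ => ?_⟩
        obtain ⟨c₀, h0, h1⟩ := h β hβ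
        exact ⟨c₀, h0, fun x h2 h3 h4 => hUV (h1 x h2 h3 h4)⟩)
      (by
        rintro U V ⟨β₀, h⟩ ⟨β₁, h'⟩
        refine ⟨max β₀ β₁, fun β hβ => ?_⟩
        obtain ⟨c₀, h0, h1⟩ := h β ((le_max_left _ _).trans hβ)
        obtain ⟨c₁, h0', h1'⟩ := h' β ((le_max_right _ _).trans hβ)
        rcases hch c₀ h0 c₁ h0' with h2 | h2
        · exact ⟨c₁, h0', fun x h3 h4 h5 => ⟨h1 x h3 (nle_trans h2 h4) h5, h1' x h3 h4 h5⟩⟩
        · exact ⟨c₀, h0, fun x h3 h4 h5 => ⟨h1 x h3 h4 h5, h1' x h3 (nle_trans h2 h4) h5⟩⟩)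
      (by
        intro U hU hs
        rcases supY_sub hne hch hU hs with ⟨c₀, h0, h1⟩ | ⟨_, _, β₀, h1, rfl⟩
        · exact ⟨b, fun β _ => ⟨c₀, h0, fun x _ h2 h3 => h1 x h2 h3⟩⟩
        · refine ⟨β₀, fun β hβ => ?_⟩
          obtain ⟨d, hd⟩ := hne
          obtain ⟨c₀, h0, h2⟩ := sup_miss hch (lc_Ioc_nI β₀ β)
            ⟨d, hd, ⟨β, fun x hx => hx.2.2.1⟩⟩ (fun x hx h => hx.2.2 (h1.2 x h hx.1))
          refine ⟨c₀, h0, ?_⟩
          rintro x ⟨l, hl, hβl, h3, h4⟩ h5 _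
          refine Or.inl ⟨l, hl, lt_of_le_of_lt hβ hβl, h3, fun ξ h6 h7 h8 => ?_⟩
          by_contra h9
          by_cases h10 : ξ ≤ β
          · exact h2 ξ ⟨h7, h10, h9⟩ ((nle_iff.1 h5).1 h6)
          · exact h4 ξ h6 (not_le.1 h10) h8) U hU hsU
    obtain ⟨c₀, h0, h1⟩ := h (max β₀ b) (le_max_left _ _)
    obtain ⟨x, hx, h2, h3, h4⟩ := exists_special hcount hMch hMmax hCM hunb
      (β := max β₀ b) (fun ξ hξ => (hb hξ).trans (le_max_right _ _)) h0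
    obtain ⟨c, hc, h5⟩ := h3
    exact ⟨x, h1 x h4 h2 (nle_trans h5 (le_supY hc)), hx, c, hc, h5⟩
  · obtain ⟨c₀, h0, h1⟩ := nhds_induct (x := supY C)
      (fun U => ∃ c₀ ∈ C, ∀ x, NLE c₀ x → NLE x (supY C) → x ∈ U)
      (by
        obtain ⟨c, hc⟩ := hne
        exact ⟨c, hc, fun _ _ _ => mem_univ _⟩)
      (by
        rintro U V hUV ⟨c₀, h0, h1⟩
        exact ⟨c₀, h0, fun x h3 h4 => hUV (h1 x h3 h4)⟩)
      (by
        rintro U V ⟨c₀, h0, h1⟩ ⟨c₁, h0', h1'⟩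
        rcases hch c₀ h0 c₁ h0' with h2 | h2
        · exact ⟨c₁, h0', fun x h4 h5 => ⟨h1 x (nle_trans h2 h4) h5, h1' x h4 h5⟩⟩
        · exact ⟨c₀, h0, fun x h4 h5 => ⟨h1 x h4 h5, h1' x (nle_trans h2 h4) h5⟩⟩)
      (by
        intro U hU hs
        rcases supY_sub hne hch hU hs with h | ⟨h1, h2, _⟩
        · exact h
        · exact absurd ⟨h1, h2⟩ hsp) U hU hsU
    exact ⟨c₀, h1 c₀ (nle_refl _) (le_supY h0), hCM h0, c₀, h0, nle_refl _⟩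

theorem supY_mem_XX {C : Set (YY W)}
    (hch : ∀ c ∈ C, ∀ d ∈ C, NLE c d ∨ NLE d c) (hX : ∀ c ∈ C, c ∈ XX W) :
    supY C ∈ XX W := by
  by_cases h : ∀ c ∈ C, c.a
  · exact Or.inr h
  · push Not at h
    obtain ⟨c, hc, h1⟩ := h
    have hb : BddAbove c.F := not_not.1 fun h => h1 (c.flag h)
    left
    by_contra hn
    obtain ⟨c₀, hc₀, h2⟩ := sup_miss hch (D := univ) (fun l _ _ => mem_univ l)
      ⟨c, hc, hb.mono inter_subset_left⟩ (fun x _ h => hn ⟨x, h⟩)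
    have h3 : c₀.a := by
      rcases hX c₀ hc₀ with ⟨x, hx⟩ | h
      · exact absurd hx (h2 x (mem_univ x))
      · exact h
    rcases hch c hc c₀ hc₀ with h | h
    · exact h1 ((nle_iff.1 h).2 h3)
    · obtain ⟨x, hx⟩ | h4 := hX c hc
      · exact h2 x (mem_univ x) ((nle_iff.1 h).1 hx)
      · exact h1 h4

theorem infY_mem_XX {C : Set (YY W)} (hne : C.Nonempty) (hX : ∀ c ∈ C, c ∈ XX W) :
    infY C ∈ XX W := by
  obtain ⟨c, hc⟩ := hne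
  rcases hX c hc with ⟨x, hx⟩ | h
  · exact Or.inl ⟨x, Or.inl ⟨c, hc, hx⟩⟩
  · exact Or.inr (Or.inl ⟨c, hc, h⟩)

/-! ### Maximal chains of `XX W` are `c`-complete -/

theorem ccomplete_maxchain (hcount : ∀ T : Set W, T.Countable → BddAbove T)
    (M : Set (XX W)) (hM : MaxSChain M) : CComplete (chainSub M hM.1) := by
  classical
  -- comparability
  have hcmp : ∀ x y : YY W, x * y = x ∨ x * y = y ↔ NLE x y ∨ NLE y x := fun x y => by
    unfold NLE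
    rw [mul_comm y x]
  -- the set of underlying elements
  let MM : Set (YY W) := Subtype.val '' M
  have hMX : ∀ m ∈ MM, m ∈ XX W := by
    rintro _ ⟨m, _, rfl⟩
    exact m.2
  have hMch : ∀ c ∈ MM, ∀ d ∈ MM, NLE c d ∨ NLE d c := by
    rintro _ ⟨c, hc, rfl⟩ _ ⟨d, hd, rfl⟩
    rw [← hcmp]
    exact (hM.1 c hc d hd).imp (fun h => congrArg Subtype.val h) (fun h => congrArg Subtype.val h)
  have hMmax : ∀ x : YY W, x ∈ XX W → (∀ m ∈ MM, NLE x m ∨ NLE m x) → x ∈ MM := by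
    intro x hx h
    refine ⟨⟨x, hx⟩, ?_, rfl⟩
    have h1 : SChain (insert (⟨x, hx⟩ : XX W) M) := by
      have hxx : ∀ m ∈ M, (⟨x, hx⟩ : XX W) * m = ⟨x, hx⟩ ∨ (⟨x, hx⟩ : XX W) * m = m := by
        intro m hm
        rcases (hcmp x m.1).2 (h m.1 ⟨m, hm, rfl⟩) with h2 | h2
        · exact Or.inl (Subtype.ext h2)
        · exact Or.inr (Subtype.ext h2)
      rintro a (rfl | ha) b (rfl | hb)
      · exact Or.inl (Subtype.ext (mul_self' x))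
      · exact hxx b hb
      · rw [mul_comm]
        exact (hxx a ha).symm
      · exact hM.1 a ha b hb
    rw [← hM.2 _ h1 (subset_insert _ _)]
    exact mem_insert _ _
  -- the inclusion into `YY W`
  let v : chainSub M hM.1 → YY W := fun t => t.1.1
  have hv : IsInducing v := IsInducing.subtypeVal.comp IsInducing.subtypeVal
  have hvM : ∀ t, v t ∈ MM := fun t => ⟨t.1, t.2, rfl⟩
  have hvinj : ∀ s t, v s = v t → s = t := fun s t h => Subtype.ext (Subtype.ext h)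
  have hvsurj : ∀ m ∈ MM, ∃ t, v t = m := by
    rintro _ ⟨m, hm, rfl⟩
    exact ⟨⟨m, hm⟩, rfl⟩
  have hvle : ∀ s t, NLE s t ↔ NLE (v s) (v t) := fun s t => by
    constructor
    · exact fun h => congrArg v h
    · exact fun h => hvinj _ _ h
  have hcl : ∀ (t : chainSub M hM.1) (A : Set (chainSub M hM.1)),
      (∀ U, IsOpen U → v t ∈ U → ∃ a ∈ A, v a ∈ U) → t ∈ closure A := by
    intro t A h
    rw [hv.closure_eq_preimage_closure_image, mem_preimage, mem_closure_iff]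
    intro U hU hU'
    obtain ⟨a, ha, h1⟩ := h U hU hU'
    exact ⟨v a, h1, a, ha, rfl⟩
  intro F hF _ C hne hCF _
  let C' : Set (YY W) := v '' C
  have hC'M : C' ⊆ MM := by
    rintro _ ⟨c, _, rfl⟩
    exact hvM c
  have hC'ne : C'.Nonempty := hne.image v
  have hC'ch : ∀ c ∈ C', ∀ d ∈ C', NLE c d ∨ NLE d c := fun c hc d hd =>
    hMch c (hC'M hc) d (hC'M hd)
  refine ⟨?_, ?_⟩
  · have hmem : infY C' ∈ MM := hMmax _ (infY_mem_XX hC'ne (fun c hc => hMX c (hC'M hc)))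
      (fun m hm => by
        by_cases h : ∃ c ∈ C', NLE c m
        · obtain ⟨c, hc, h⟩ := h
          exact Or.inl (nle_trans (infY_le hc) h)
        · push Not at h
          exact Or.inr (le_infY (fun c hc => (hMch m hm c (hC'M hc)).resolve_right (h c hc))))
    obtain ⟨t, ht⟩ := hvsurj _ hmem
    refine ⟨t, ?_, ?_, ?_⟩
    · rw [← hF.closure_eq]
      refine closure_mono hCF (hcl t C fun U hU hU' => ?_)
      rw [ht] at hU'
      obtain ⟨_, ⟨c, hc, rfl⟩, h1⟩ := infY_nhds hC'ne hC'ch U hU hU'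
      exact ⟨c, hc, h1 _ ⟨c, hc, rfl⟩ (nle_refl _)⟩
    · intro c hc
      rw [hvle, ht]
      exact infY_le ⟨c, hc, rfl⟩
    · intro j hj
      rw [hvle, ht]
      refine le_infY ?_
      rintro _ ⟨c, hc, rfl⟩
      exact (hvle _ _).1 (hj c hc)
  · have hmem : supY C' ∈ MM := hMmax _ (supY_mem_XX hC'ch (fun c hc => hMX c (hC'M hc)))
      (fun m hm => by
        by_cases h : ∃ c ∈ C', NLE m c
        · obtain ⟨c, hc, h⟩ := h
          exact Or.inr (nle_trans h (le_supY hc))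
        · push Not at h
          exact Or.inl (supY_le (fun c hc => (hMch m hm c (hC'M hc)).resolve_left (h c hc))))
    obtain ⟨t, ht⟩ := hvsurj _ hmem
    refine ⟨t, hcl t _ fun U hU hU' => ?_, ?_, ?_⟩
    · rw [ht] at hU'
      obtain ⟨x, hx, hxM, _, ⟨c, hc, rfl⟩, h1⟩ := sup_closure hcount hMch
        (fun x hx => hMmax x (Or.inr hx)) hC'ne hC'M U hU hU'
      obtain ⟨s, hs⟩ := hvsurj x hxM
      exact ⟨s, ⟨c, hc, by rw [hvle, hs]; exact h1⟩, by rw [hs]; exact hx⟩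
    · intro c hc
      rw [hvle, ht]
      exact le_supY ⟨c, hc, rfl⟩
    · intro j hj
      rw [hvle, ht]
      refine supY_le ?_
      rintro _ ⟨c, hc, rfl⟩
      exact (hvle _ _).1 (hj c hc)

/-! ### `y₀` is in the closure of `XX W` -/

theorem y0_mem_closure [Nonempty W] : (y0 : YY W) ∈ closure (XX W : Set (YY W)) := by
  rw [mem_closure_iff]
  intro U hU hy
  -- the singletons
  let pt : W → YY W := fun w => ⟨{succ (succ w)}, False, good_singleton (isI_succ_succ w),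
    fun h => h bddAbove_singleton⟩
  obtain ⟨w₀, h⟩ := nhds_induct (x := (y0 : YY W)) (fun U => ∃ w₀, ∀ w, w₀ ≤ w → pt w ∈ U)
    ⟨Classical.arbitrary W, fun _ _ => mem_univ _⟩
    (by
      rintro U V hUV ⟨w₀, h⟩
      exact ⟨w₀, fun w hw => hUV (h w hw)⟩)
    (by
      rintro U V ⟨w₀, h⟩ ⟨w₁, h'⟩
      exact ⟨max w₀ w₁, fun w hw => ⟨h w ((le_max_left _ _).trans hw),
        h' w ((le_max_right _ _).trans hw)⟩⟩)
    (by
      intro U hU hx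
      cases hU with
      | t1 k hk => exact absurd hx (notMem_empty k)
      | t1' k hk =>
        refine ⟨k, fun w hw h => ?_⟩
        have h1 : k = succ (succ w) := h
        have h2 : k < succ (succ w) := lt_of_le_of_lt hw ((Order.lt_succ w).trans (Order.lt_succ _))
        exact absurd h1 h2.ne
      | t2 η l hη =>
        obtain ⟨ξ, h, _⟩ := hx
        exact absurd h (notMem_empty ξ)
      | t3 η l =>
        refine ⟨l, fun w hw ξ h _ h3 => ?_⟩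
        have h1 : ξ = succ (succ w) := h
        have h2 : l < succ (succ w) := lt_of_le_of_lt hw ((Order.lt_succ w).trans (Order.lt_succ _))
        exact absurd h3 (not_le.2 (h1 ▸ h2))
      | t4 η l hl hlt => exact absurd hx.1 (notMem_empty _)
      | o0 β =>
        refine ⟨β, fun w _ => ⟨fun h => h, (finite_singleton (succ (succ w))).subset
          inter_subset_left, fun ξ h _ => ?_⟩⟩
        have h1 : ξ = succ (succ w) := h
        rw [h1]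
        exact isI_succ_succ w
      | o1 β =>
        rcases hx with ⟨l, _, _, h, _⟩ | ⟨h, _⟩
        · exact absurd h (notMem_empty _)
        · exact absurd h id) U hU hy
  exact ⟨pt w₀, h w₀ le_rfl, Or.inl ⟨succ (succ w₀), rfl⟩⟩

theorem y0_notMem [Nonempty W] : (y0 : YY W) ∉ XX W := by
  rintro (⟨x, hx⟩ | h)
  · exact absurd hx (notMem_empty x)
  · exact h

end Semilattice

/-! ## The order type `ω₁` -/

/-- The well-order of type `ω₁`. -/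
abbrev WW : Type := (Ordinal.omega 1 : Ordinal.{0}).ToType

theorem cofWW : Order.cof WW = Cardinal.aleph 1 := by
  rw [Ordinal.cof_toType, Cardinal.cof_omega_one]

instance : Nonempty WW := by
  rw [Ordinal.nonempty_toType_iff]
  exact (Ordinal.omega_pos 1).ne'

instance : NoMaxOrder WW := by
  have h : NoTopOrder WW := Order.one_lt_cof_iff.1 (by
    rw [cofWW]; exact Cardinal.one_lt_aleph0.trans_le (Cardinal.aleph0_le_aleph 1))
  refine ⟨fun a => ?_⟩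
  obtain ⟨b, hb⟩ := h.exists_not_le a
  exact ⟨b, not_le.1 hb⟩

theorem countable_bdd (T : Set WW) (hT : T.Countable) : BddAbove T := by
  by_contra hn
  have h : IsCofinal T := by
    intro x
    by_contra hx
    push Not at hx
    exact hn ⟨x, fun t ht => (hx t ht).le⟩
  have h1 := Order.cof_le h
  rw [cofWW] at h1
  have h2 : Cardinal.mk T ≤ Cardinal.aleph0 := hT.le_aleph0
  exact absurd (h1.trans h2) (not_le.2 Cardinal.aleph0_lt_aleph_one)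

/-- **Main theorem.** There is a Hausdorff topological semilattice `X` all of whose maximal chains
are `c`-complete, and a topological isomorphic embedding of `X` into a Hausdorff topological
semilattice `Y` whose image is not closed. So `X` is neither `H`-closed nor absolutely
`H`-closed. -/
theorem result : ∃ (X : Type) (_ : CommSemigroup X) (_ : TopologicalSpace X),
    ContinuousMul X ∧ T2Space X ∧ (∀ x : X, x * x = x) ∧
    (∀ (M : Set X) (hM : MaxSChain M), CComplete (chainSub M hM.1)) ∧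
    ∃ (Y : Type) (_ : CommSemigroup Y) (_ : TopologicalSpace Y) (h : X →ₙ* Y),
      ContinuousMul Y ∧ T2Space Y ∧ (∀ y : Y, y * y = y) ∧
      IsEmbedding h ∧ ¬ IsClosed (range h) := by
  refine ⟨XX WW, inferInstance, inferInstance, inferInstance, inferInstance,
    fun x => Subtype.ext (mul_self' x.1), fun M hM => ccomplete_maxchain countable_bdd M hM,
    YY WW, inferInstance, inferInstance, MulMemClass.subtype (XX WW), inferInstance, inferInstance,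
    mul_self', IsEmbedding.subtypeVal, ?_⟩
  intro hcl
  have h1 : range (MulMemClass.subtype (XX WW)) = (XX WW : Set (YY WW)) := Subtype.range_coe
  rw [h1] at hcl
  exact y0_notMem (hcl.closure_eq ▸ y0_mem_closure (W := WW))

end Pool.Agent.Results.MP_97d10c_gt.MaxChainsCCompleteNotHClosed
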